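import Mathlib
import Pool.Agent.X115.FCP

/-!
# The count of Fourier critical points of `f_{ν,n}` fails in case (b)

For `n = 1` and `-101/100 ≤ ν < -1`, a part of the interval `(n - 2 s - 1, n - 2 s)` with `s = 1`, the
function `f_{ν,1}` has no Fourier critical point, although the statement predicts exactly one.

Proof. With `G_j = 0F1(; ν + j + 1; x)` one has `f^(j) = const (2 x G_j' + (ν + 2 j) G_j)`, and at a
zero `c ≠ 0` of `f^(j+1)` the product `f^(j) f^(j+2)` has the sign of
`(c + ν (ν + 2 j) / 4) (c + ν (ν + 2 j + 2) / 4) / c`.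
-/

set_option autoImplicit false

open Finset Filter Topology Pool.Agent.X115.FCP

namespace Pool.Agent.Results.MP_dd47c1_an.NoCriticalPoints

lemma no_zero {ν : ℝ} (h1 : -101 / 100 ≤ ν) (h2 : ν < -1) (hs : Sep ν (-1 - ν)) {c : ℝ}
    (hc : c < 0) (hc' : -(ν ^ 2 / 4) ≤ c) : F ν 1 c ≠ 0 := by
  have hcl : -(2551 / 10000) ≤ c := by nlinarith
  have hac : |c| = -c := abs_of_neg hc
  have key := tail_bound hs 1 c 1 (q := 13 / 100) (by norm_num) (by norm_num) (by
    intro m hm
    have hm' : (1 : ℝ) ≤ m := by exact_mod_cast hm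
    have a1 : 0 < 2 * (m : ℝ) + (ν + 2 * ((1 : ℕ) : ℝ)) := by push_cast; linarith
    rw [tm_succ hs 1 c m a1.ne', abs_mul, mul_comm]
    apply mul_le_mul_of_nonneg_right _ (abs_nonneg _)
    have a2 : 0 < 2 * ((m : ℝ) + 1) + (ν + 2 * ((1 : ℕ) : ℝ)) := by push_cast; linarith
    have a3 : 0 < ν + ((1 : ℕ) : ℝ) + 1 + m := by push_cast; linarith
    have a4 : 0 < (m : ℝ) + 1 := by linarith
    rw [abs_div, abs_mul, abs_mul, abs_mul, abs_of_pos a1, abs_of_pos a2, abs_of_pos a3,
      abs_of_pos a4, hac, div_le_iff₀ (by positivity)]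
    push_cast
    have b1 : -c * (2 * ((m : ℝ) + 1) + (ν + 2 * 1)) ≤ 2551 / 10000 * (2 * m + 3) := by
      apply mul_le_mul (by linarith) (by linarith) (by linarith) (by norm_num)
    have b2 : (2 * (m : ℝ) + 99 / 100) * 2 * (199 / 100) ≤
        (2 * m + (ν + 2 * 1)) * (m + 1) * (ν + 1 + 1 + m) := by
      apply mul_le_mul (mul_le_mul (by linarith) (by linarith) (by norm_num) (by linarith))
        (by linarith) (by norm_num) (mul_nonneg (by linarith) (by linarith))
    nlinarith)
  simp only [range_one, sum_singleton] at key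
  have t0 : tm ν 1 c 0 = ν + 2 := by simp [tm, cf, poch]
  have t1 : tm ν 1 c 1 = (ν + 4) * c / (ν + 2) := by
    have : ν + 2 ≠ 0 := by linarith
    have e : ν + 1 + 1 = ν + 2 := by ring
    simp [tm, cf, poch, e]
    field_simp
    ring
  rw [t0, t1] at key
  have t2 : |(ν + 4) * c / (ν + 2)| ≤ 774 / 1000 := by
    rw [abs_div, abs_mul, hac, abs_of_pos (by linarith : 0 < ν + 4),
      abs_of_pos (by linarith : 0 < ν + 2), div_le_iff₀ (by linarith)]
    nlinarith
  have t3 : |(ν + 4) * c / (ν + 2)| / (1 - 13 / 100) ≤ 774 / 870 := by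
    rw [div_le_iff₀ (by norm_num)]
    linarith
  have t4 := (abs_le.1 (key.trans t3)).1
  intro h0
  rw [h0] at t4
  linarith

/-- **Main result.** For `-101/100 ≤ ν < -1` the function `f_{ν,1}` has no Fourier critical point.
Consequently the assertion of Q1 is false (`n = 1`, `s = 1`). -/
theorem result :
    (∀ ν : ℝ, -101 / 100 ≤ ν → ν < -1 → ν ∈ Set.Ioo ((1 : ℝ) - 2 * 1 - 1) (1 - 2 * 1) ∧
      ∀ c : ℝ, ¬ IsFourierCritical (f ν 1) c) ∧
    ¬ ∀ (s n : ℕ) (ν : ℝ), 1 ≤ s → (∀ k : ℤ, ν ≠ k) →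
      ν ∈ Set.Ioo ((n : ℝ) - 2 * s - 1) (n - 2 * s) →
      {c : ℝ | IsFourierCritical (f ν n) c}.encard = s ∧ ∀ x : ℝ, 0 < x → f ν n x ≠ 0 := by
  have main : ∀ ν : ℝ, -101 / 100 ≤ ν → ν < -1 → ∀ c : ℝ, ¬ IsFourierCritical (f ν 1) c := by
    intro ν h1 h2
    have hν : ∀ k : ℤ, ν ≠ k := by
      rintro k rfl
      have a1 : (-2 : ℝ) < k := by linarith
      have a2 : -2 < k := by exact_mod_cast a1
      have a3 : k < -1 := by exact_mod_cast h2
      omega
    have hs : Sep ν (-1 - ν) := by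
      refine ⟨by linarith, fun i => ?_⟩
      rcases Nat.eq_zero_or_pos i with h | h
      · rw [h, Nat.cast_zero, add_zero, abs_of_neg (by linarith)]; linarith
      · have : (1 : ℝ) ≤ i := by exact_mod_cast h
        rw [abs_of_pos (by linarith)]; linarith
    refine no_critical_of hs hν fun j c hc => ?_
    have hj : (0 : ℝ) ≤ j := Nat.cast_nonneg j
    have hcneg : c < 0 := by
      by_contra hcon
      push Not at hcon
      have := F_pos hs (j + 1) hcon (by push_cast; linarith) (by push_cast; linarith)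
      linarith
    refine ⟨hcneg, ?_⟩
    have hsec : c + ν * (ν + 2 * j + 2) / 4 < 0 := by
      have : 0 < ν + 2 * j + 2 := by linarith
      nlinarith
    apply mul_pos_of_neg_of_neg _ hsec
    rcases Nat.eq_zero_or_pos j with h | h
    · subst h
      by_contra hcon
      push Not at hcon
      refine no_zero h1 h2 hs hcneg ?_ hc
      have e : c + ν * (ν + 2 * ((0 : ℕ) : ℝ)) / 4 = c + ν ^ 2 / 4 := by push_cast; ring
      rw [e] at hcon
      linarith
    · have : (1 : ℝ) ≤ j := by exact_mod_cast h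
      have : 0 < ν + 2 * j := by linarith
      nlinarith
  refine ⟨fun ν h1 h2 => ⟨⟨by linarith, by linarith⟩, main ν h1 h2⟩, fun H => ?_⟩
  have h1 := (H 1 1 (-101 / 100) le_rfl (by
    intro k hk
    have a1 : (-2 : ℝ) < k := by rw [← hk]; norm_num
    have a2 : (k : ℝ) < -1 := by rw [← hk]; norm_num
    have a3 : -2 < k := by exact_mod_cast a1
    have a4 : k < -1 := by exact_mod_cast a2
    omega) (by push_cast; constructor <;> norm_num)).1
  have h2 : {c : ℝ | IsFourierCritical (f (-101 / 100) 1) c} = ∅ := by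
    ext c
    simp only [Set.mem_ofPred_eq, Set.mem_empty_iff_false, iff_false]
    exact main _ le_rfl (by norm_num) c
  rw [h2] at h1
  simp at h1

end Pool.Agent.Results.MP_dd47c1_an.NoCriticalPoints
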